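import Pool.Agent.W203.WS.Stm

/-! # Waring with almost all shifts: bounds for the exponential integral -/

set_option autoImplicit false

open MeasureTheory Finset

namespace Pool.Agent.W950.WS

open Pool.Agent.W203.WS

theorem norm_e (x : ℝ) : ‖e x‖ = 1 := by
  unfold e
  have : (2 * (Real.pi : ℂ) * Complex.I * (x : ℂ)) = ((2 * Real.pi * x : ℝ) : ℂ) * Complex.I := by
    push_cast; ring
  rw [this, Complex.norm_exp_ofReal_mul_I]

theorem conj_e (x : ℝ) : (starRingEnd ℂ) (e x) = e (-x) := by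
  unfold e
  rw [← Complex.exp_conj]
  congr 1
  simp only [map_mul, Complex.conj_I, Complex.conj_ofReal, map_ofNat]
  push_cast
  ring

theorem J1_neg (k P : ℕ) (t : ℝ) : J1 k P (-t) = (starRingEnd ℂ) (J1 k P t) := by
  unfold J1
  rw [← intervalIntegral.intervalIntegral_conj]
  apply intervalIntegral.integral_congr
  intro u _
  simp only
  rw [conj_e]
  congr 1
  ring

theorem J1_pos (h : S_FDT) (k P : ℕ) (t : ℝ) (hk : 1 ≤ k) (hP : 1 ≤ P) (ht : 0 < t) :
    ‖J1 k P t‖ ≤ 1 / (t * (P : ℝ) ^ (k - 1)) := by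
  have hP0 : (0 : ℝ) < P := by exact_mod_cast hP
  unfold J1
  refine h (fun u => t * u ^ k) (fun u => t * (k * u ^ (k - 1)))
    (fun u => t * (k * (((k - 1 : ℕ) : ℝ) * u ^ (k - 1 - 1)))) (P : ℝ) (4 * P)
    (t * (P : ℝ) ^ (k - 1)) (by linarith) (by positivity) ?_ ?_ ?_ ?_ ?_
  · intro x _
    exact (hasDerivAt_pow k x).const_mul t
  · intro x _
    exact ((hasDerivAt_pow (k - 1) x).const_mul (k : ℝ)).const_mul t
  · fun_prop
  · intro x hx
    have hx1 : (P : ℝ) ≤ x := hx.1
    have h1 : (P : ℝ) ^ (k - 1) ≤ x ^ (k - 1) := pow_le_pow_left₀ hP0.le hx1 _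
    have h2 : (1 : ℝ) ≤ k := by exact_mod_cast hk
    have h3 : (0 : ℝ) ≤ x ^ (k - 1) := by
      have : (0 : ℝ) ≤ x := by linarith
      positivity
    have h4 : (P : ℝ) ^ (k - 1) ≤ k * x ^ (k - 1) := by nlinarith
    exact mul_le_mul_of_nonneg_left h4 ht.le
  · intro x hx
    have hx1 : (P : ℝ) ≤ x := hx.1
    have : (0 : ℝ) ≤ x := by linarith
    positivity

theorem t_IB (h : S_FDT) : S_IB := by
  intro k P t hk hP
  have hP0 : (0 : ℝ) < P := by exact_mod_cast hP
  constructor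
  · unfold J1
    have h1 : ‖∫ u in (P : ℝ)..(4 * P), e (t * u ^ k)‖ ≤ 1 * |4 * (P : ℝ) - P| := by
      apply intervalIntegral.norm_integral_le_of_norm_le_const
      intro x _
      rw [norm_e]
    have h2 : |4 * (P : ℝ) - P| = 3 * P := by
      rw [abs_of_nonneg (by linarith)]; ring
    rw [h2] at h1
    linarith
  · intro ht
    rcases lt_or_gt_of_ne ht with h0 | h0
    · have h1 := J1_pos h k P (-t) hk hP (by linarith)
      have h2 : ‖J1 k P (-t)‖ = ‖J1 k P t‖ := by
        rw [J1_neg, Complex.norm_conj]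
      rw [h2] at h1
      rw [abs_of_neg h0]
      exact h1
    · rw [abs_of_pos h0]
      exact J1_pos h k P t hk hP h0

end Pool.Agent.W950.WS
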