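import Pool.Agent.W203.WS.Stm

/-! # Waring with almost all shifts: sum minus integral -/

set_option autoImplicit false

open MeasureTheory Finset

namespace Pool.Agent.W950.WS

open Pool.Agent.W203.WS

theorem norm_e' (x : ℝ) : ‖e x‖ = 1 := by
  unfold e
  have : (2 * (Real.pi : ℂ) * Complex.I * (x : ℂ)) = ((2 * Real.pi * x : ℝ) : ℂ) * Complex.I := by
    push_cast; ring
  rw [this, Complex.norm_exp_ofReal_mul_I]

theorem norm_e_sub (a b : ℝ) : ‖e a - e b‖ ≤ 2 * Real.pi * |a - b| := by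
  have h1 : e a - e b = e b * (Complex.exp (Complex.I * ((2 * Real.pi * (a - b) : ℝ) : ℂ)) - 1) := by
    unfold e
    rw [mul_sub, mul_one, ← Complex.exp_add]
    congr 2
    push_cast
    ring
  rw [h1, norm_mul, norm_e', one_mul]
  have h2 := Real.norm_exp_I_mul_ofReal_sub_one_le (x := 2 * Real.pi * (a - b))
  refine h2.trans (le_of_eq ?_)
  rw [Real.norm_eq_abs, abs_mul, abs_of_pos (by positivity)]

theorem pow_sub_le (k : ℕ) (a b R : ℝ) (ha : 0 ≤ a) (hb : 0 ≤ b) (haR : a ≤ R) (hbR : b ≤ R)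
    (hab : |a - b| ≤ 1) : |a ^ k - b ^ k| ≤ k * R ^ (k - 1) := by
  have h := abs_pow_sub_pow_le a b k
  have h1 : max |a| |b| ≤ R := by
    rw [abs_of_nonneg ha, abs_of_nonneg hb]; exact max_le haR hbR
  have h2 : (max |a| |b|) ^ (k - 1) ≤ R ^ (k - 1) :=
    pow_le_pow_left₀ (le_max_of_le_left (abs_nonneg a)) h1 _
  have h3 : (0 : ℝ) ≤ (max |a| |b|) ^ (k - 1) := by positivity
  have hk : (0 : ℝ) ≤ k := Nat.cast_nonneg k
  calc |a ^ k - b ^ k| ≤ |a - b| * k * (max |a| |b|) ^ (k - 1) := h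
    _ ≤ 1 * k * R ^ (k - 1) := by gcongr
    _ = k * R ^ (k - 1) := by ring

theorem cont_e : Continuous e := by
  unfold e
  fun_prop

theorem J1_split (k P : ℕ) (t : ℝ) :
    J1 k P t = ∑ x ∈ Ico P (4 * P), ∫ u in (x : ℝ)..((x + 1 : ℕ) : ℝ), e (t * u ^ k) := by
  unfold J1
  have hc : Continuous (fun u : ℝ => e (t * u ^ k)) := cont_e.comp (by fun_prop)
  have h := intervalIntegral.sum_integral_adjacent_intervals_Ico
    (f := fun u : ℝ => e (t * u ^ k)) (μ := volume) (a := fun n : ℕ => (n : ℝ))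
    (m := P) (n := 4 * P) (by omega) (fun j _ => hc.intervalIntegrable _ _)
  rw [h]
  push_cast
  rfl

theorem t_DF : S_DF := by
  intro k hk
  refine ⟨6 * Real.pi * k * 4 ^ (k - 1), by positivity, ?_⟩
  intro P t θ hP h0 h1
  have hP0 : (0 : ℝ) < P := by exact_mod_cast hP
  have hk0 : (0 : ℝ) ≤ k := Nat.cast_nonneg k
  rw [J1_split]
  unfold S
  rw [← Finset.sum_sub_distrib]
  have hterm : ∀ x ∈ Ico P (4 * P),
      ‖e (t * ((x : ℝ) + θ) ^ k) - ∫ u in (x : ℝ)..((x + 1 : ℕ) : ℝ), e (t * u ^ k)‖ ≤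
        2 * Real.pi * (|t| * (k * (4 * P) ^ (k - 1))) := by
    intro x hx
    rw [Finset.mem_Ico] at hx
    have hx1 : (P : ℝ) ≤ x := by exact_mod_cast hx.1
    have hx2 : (x : ℝ) + 1 ≤ 4 * P := by exact_mod_cast hx.2
    have hc : Continuous (fun u : ℝ => e (t * u ^ k)) := cont_e.comp (by fun_prop)
    have e1 : e (t * ((x : ℝ) + θ) ^ k) =
        ∫ u in (x : ℝ)..((x + 1 : ℕ) : ℝ), e (t * ((x : ℝ) + θ) ^ k) := by
      rw [intervalIntegral.integral_const]
      push_cast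
      simp
    rw [e1, ← intervalIntegral.integral_sub (by simp) (hc.intervalIntegrable _ _)]
    have h3 : ‖∫ u in (x : ℝ)..((x + 1 : ℕ) : ℝ), (e (t * ((x : ℝ) + θ) ^ k) - e (t * u ^ k))‖ ≤
        (2 * Real.pi * (|t| * (k * (4 * P) ^ (k - 1)))) * |((x + 1 : ℕ) : ℝ) - x| := by
      apply intervalIntegral.norm_integral_le_of_norm_le_const
      intro u hu
      push_cast at hu
      rw [Set.uIoc_of_le (by linarith)] at hu
      have hu1 := hu.1
      have hu2 := hu.2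
      have h5 : |((x : ℝ) + θ) ^ k - u ^ k| ≤ k * (4 * P) ^ (k - 1) := by
        apply pow_sub_le
        · linarith
        · linarith
        · linarith
        · linarith
        · rw [abs_le]; constructor <;> linarith
      calc ‖e (t * ((x : ℝ) + θ) ^ k) - e (t * u ^ k)‖
          ≤ 2 * Real.pi * |t * ((x : ℝ) + θ) ^ k - t * u ^ k| := norm_e_sub _ _
        _ = 2 * Real.pi * (|t| * |((x : ℝ) + θ) ^ k - u ^ k|) := by rw [← mul_sub, abs_mul]
        _ ≤ 2 * Real.pi * (|t| * (k * (4 * P) ^ (k - 1))) := by gcongr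
    have h4 : |((x + 1 : ℕ) : ℝ) - x| = 1 := by push_cast; simp
    rw [h4, mul_one] at h3
    exact h3
  calc ‖∑ x ∈ Ico P (4 * P), (e (t * ((x : ℝ) + θ) ^ k) -
        ∫ u in (x : ℝ)..((x + 1 : ℕ) : ℝ), e (t * u ^ k))‖
      ≤ ∑ x ∈ Ico P (4 * P), ‖e (t * ((x : ℝ) + θ) ^ k) -
        ∫ u in (x : ℝ)..((x + 1 : ℕ) : ℝ), e (t * u ^ k)‖ := norm_sum_le _ _
    _ ≤ ∑ x ∈ Ico P (4 * P), 2 * Real.pi * (|t| * (k * (4 * P) ^ (k - 1))) :=
        Finset.sum_le_sum hterm
    _ = (3 * P) * (2 * Real.pi * (|t| * (k * (4 * P) ^ (k - 1)))) := by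
        rw [Finset.sum_const, Nat.card_Ico, nsmul_eq_mul]
        have : ((4 * P - P : ℕ) : ℝ) = 3 * P := by
          have : 4 * P - P = 3 * P := by omega
          rw [this]; push_cast; ring
        rw [this]
    _ = 6 * Real.pi * k * 4 ^ (k - 1) * |t| * (P : ℝ) ^ k := by
        have : (P : ℝ) ^ k = P * (P : ℝ) ^ (k - 1) := by
          rw [← pow_succ']; congr 1; omega
        rw [this, mul_pow]
        ring

end Pool.Agent.W950.WS
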